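import Pool.Agent.H11.IT.One

set_option autoImplicit false

/-!
# One Banach space for all countable ordinals

`C(Set.Icc 0 β, ℝ)` is the space `C(β)` of the continuous real functions on the ordinals `≤ β`, and
`ZeroAtInftyContinuousMap ℕ ℝ` is `c₀`.
-/

namespace Pool.Agent.Results.MP_ba88e9_an.OneSpace

open Ordinal

/-- The values `|∑ φ (x i) ψ (y i)|` over functionals of norm at most one. -/
def vals {X : Type*} [NormedAddCommGroup X] [NormedSpace ℝ X] {n : ℕ} (x y : Fin n → X) : Set ℝ :=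
  {r | ∃ φ ψ : StrongDual ℝ X, ‖φ‖ ≤ 1 ∧ ‖ψ‖ ≤ 1 ∧ r = |∑ i, φ (x i) * ψ (y i)|}

/-- `Z` with `b x y = x ⊗ y` is the completed injective tensor product of `X` with itself. -/
def IsInj {X Z : Type*} [NormedAddCommGroup X] [NormedSpace ℝ X] [NormedAddCommGroup Z]
    [NormedSpace ℝ Z] (b : X → X → Z) : Prop :=
  CompleteSpace Z ∧ (∀ x, IsLinearMap ℝ (b x)) ∧ (∀ y, IsLinearMap ℝ fun x => b x y) ∧
    Dense (Submodule.span ℝ {z | ∃ x y, z = b x y} : Set Z) ∧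
    ∀ (n : ℕ) (x y : Fin n → X), IsLUB (vals x y) ‖∑ i, b (x i) (y i)‖

/-- `E` embeds isomorphically in `Z`. -/
def Emb (E Z : Type*) [NormedAddCommGroup E] [NormedSpace ℝ E] [NormedAddCommGroup Z]
    [NormedSpace ℝ Z] : Prop :=
  ∃ (T : E →L[ℝ] Z) (c : ℝ), 0 < c ∧ ∀ x, c * ‖x‖ ≤ ‖T x‖

/-- `E` embeds complementably in `Z`, and moreover `E` is isometric (via `J`) to the range of the
projection `J ∘ P` of norm at most one. -/
def Cmp (E Z : Type*) [NormedAddCommGroup E] [NormedSpace ℝ E] [NormedAddCommGroup Z]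
    [NormedSpace ℝ Z] : Prop :=
  ∃ (J : E →L[ℝ] Z) (P : Z →L[ℝ] E), (∀ f, P (J f) = f) ∧ (∀ f, ‖J f‖ = ‖f‖) ∧ ∀ z, ‖P z‖ ≤ ‖z‖

/-- There is one Banach space `X` such that
(1) for every countable ordinal `α`, `C(ω^ω^α)` is isometric to a norm one complemented subspace of
the injective tensor product `Z` of `X` with itself, and does not embed in `X`;
(2) more generally, `C(β)` is isometric to a norm one complemented subspace of `Z` for every
countable ordinal `β`, and `C(β)` does not embed in `X` for every infinite ordinal `β`;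
(3) `c₀` does not embed in `X`; moreover the terms of every weakly unconditionally Cauchy series
of `X` tend to zero in norm. -/
theorem result :
    ∃ (X Z : Type 1) (_ : NormedAddCommGroup X) (_ : NormedSpace ℝ X) (_ : CompleteSpace X)
      (_ : NormedAddCommGroup Z) (_ : NormedSpace ℝ Z) (b : X → X → Z), IsInj b ∧
      (∀ α : Ordinal.{0}, α.card ≤ Cardinal.aleph0 →
        Cmp C(Set.Icc 0 (ω ^ ω ^ α), ℝ) Z ∧ ¬ Emb C(Set.Icc 0 (ω ^ ω ^ α), ℝ) X) ∧
      (∀ β : Ordinal.{0}, β.card ≤ Cardinal.aleph0 → Cmp C(Set.Icc 0 β, ℝ) Z) ∧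
      (∀ β : Ordinal.{0}, ω ≤ β → ¬ Emb C(Set.Icc 0 β, ℝ) X) ∧
      ¬ Emb (ZeroAtInftyContinuousMap ℕ ℝ) X ∧
      (∀ (u : ℕ → X) (C : ℝ), (∀ (F : Finset ℕ) (ε : ℕ → ℝ), (∀ i, |ε i| ≤ 1) →
        ‖∑ i ∈ F, ε i • u i‖ ≤ C) → Filter.Tendsto (fun i => ‖u i‖) Filter.atTop (nhds 0)) := by
  obtain ⟨X, a, b, c, h, k⟩ := Pool.Agent.H11.IT.one_for_all
  obtain ⟨Z, d, e, f, g, l⟩ := Pool.Agent.H11.IT.pack_all h
  have noC : ∀ β : Ordinal.{0}, ω ≤ β → ¬ Emb C(Set.Icc 0 β, ℝ) X := fun β hβ => by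
    obtain ⟨u, u1, u2⟩ := Pool.Agent.H11.IT.seq_C β hβ
    exact k.noemb u u1 u2
  obtain ⟨u, u1, u2⟩ := Pool.Agent.H11.IT.seq_c0
  have l' : ∀ β : Ordinal.{0}, β.card ≤ Cardinal.aleph0 → Cmp C(Set.Icc 0 β, ℝ) Z := fun β hβ => by
    obtain ⟨J, P, q1, q2, q3⟩ := l β hβ
    exact ⟨J, P, q1, fun r => (q2 r).antisymm (by have := q3 (J r); rwa [q1] at this), q3⟩
  refine ⟨X, Z, a, b, c, d, e, f, g, fun α hα => ⟨l' _ ?_, noC _ ?_⟩, l', noC, k.noemb u u1 u2, k⟩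
  · exact (card_opow_le _ _).trans (max_le le_rfl (max_le card_omega0.le ((card_opow_le _ _).trans
      (max_le le_rfl (max_le card_omega0.le hα)))))
  · exact left_le_opow _ (opow_pos _ omega0_pos)

end Pool.Agent.Results.MP_ba88e9_an.OneSpace
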